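import Mathlib

set_option autoImplicit false

namespace Pool.Agent.H.MP_2b3591_co

open Finset

def Good (k M : ℕ) : Prop :=
  ∃ (α : Type) (_ : Fintype α) (_ : DecidableEq α) (F : Finset (Finset α)),
    (∀ A ∈ F, A.card = k) ∧ (∀ A ∈ F, ∀ B ∈ F, ¬ Disjoint A B) ∧
    ∀ D : Finset α, D.card < k → M ≤ (F.filter fun A => Disjoint A D).card

lemma Good.mono {k M M' : ℕ} (h : Good k M) (hM : M' ≤ M) : Good k M' := by
  obtain ⟨α, i1, i2, F, h1, h2, h3⟩ := h
  exact ⟨α, i1, i2, F, h1, h2, fun D hD => hM.trans (h3 D hD)⟩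

lemma good3 : Good 3 2 := by
  refine ⟨Fin 6, inferInstance, inferInstance, {{0, 1, 2}, {0, 2, 3}, {0, 3, 4}, {0, 4, 5},
    {0, 5, 1}, {1, 2, 4}, {2, 3, 5}, {3, 4, 1}, {4, 5, 2}, {5, 1, 3}}, ?_, ?_, ?_⟩ <;>
  decide +kernel

lemma good4 : Good 4 2 := by
  refine ⟨Fin 9, inferInstance, inferInstance, {{0, 1, 3, 4}, {0, 1, 3, 5}, {0, 1, 4, 5},
    {0, 2, 3, 4}, {0, 2, 3, 5}, {0, 2, 4, 5}, {1, 2, 3, 4}, {1, 2, 3, 5}, {1, 2, 4, 5},
    {0, 1, 6, 7}, {0, 1, 6, 8}, {0, 1, 7, 8}, {0, 2, 6, 7}, {0, 2, 6, 8}, {0, 2, 7, 8},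
    {1, 2, 6, 7}, {1, 2, 6, 8}, {1, 2, 7, 8}, {3, 4, 6, 7}, {3, 4, 6, 8}, {3, 4, 7, 8},
    {3, 5, 6, 7}, {3, 5, 6, 8}, {3, 5, 7, 8}, {4, 5, 6, 7}, {4, 5, 6, 8}, {4, 5, 7, 8}},
    ?_, ?_, ?_⟩ <;>
  decide +kernel

section double
variable {α : Type} [DecidableEq α]

def two (i : Fin 3) (A B : Finset α) : Finset (Fin 3 × α) := {i + 1} ×ˢ A ∪ {i + 2} ×ˢ B

lemma mem_two (i : Fin 3) (A B : Finset α) (l : Fin 3) (x : α) :
    (l, x) ∈ two i A B ↔ (l = i + 1 ∧ x ∈ A) ∨ (l = i + 2 ∧ x ∈ B) := by
  simp only [two, mem_union, mem_product, mem_singleton]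

lemma ne12 : ∀ i : Fin 3, i + 1 ≠ i + 2 := by decide

lemma card_two (i : Fin 3) (A B : Finset α) : (two i A B).card = A.card + B.card := by
  rw [two, card_union_of_disjoint]
  · simp
  · rw [disjoint_left]
    rintro ⟨l, x⟩ h1 h2
    simp only [mem_product, mem_singleton] at h1 h2
    exact ne12 i (h1.1.symm.trans h2.1)

end double

lemma Good.double {k M : ℕ} (h : Good k M) : Good (2 * k) (M * M) := by
  obtain ⟨α, i1, i2, F, h1, h2, h3⟩ := h
  refine ⟨Fin 3 × α, inferInstance, inferInstance,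
    ((univ : Finset (Fin 3)) ×ˢ F ×ˢ F).image fun p => two p.1 p.2.1 p.2.2, ?_, ?_, ?_⟩
  · intro S hS
    obtain ⟨⟨i, A, B⟩, hp, rfl⟩ := mem_image.1 hS
    simp only [mem_product, mem_univ, true_and] at hp
    rw [card_two, h1 _ hp.1, h1 _ hp.2, two_mul]
  · intro S hS T hT
    obtain ⟨⟨i, A, B⟩, hp, rfl⟩ := mem_image.1 hS
    obtain ⟨⟨j, C, D⟩, hq, rfl⟩ := mem_image.1 hT
    simp only [mem_product, mem_univ, true_and] at hp hq
    have key : ∀ i j : Fin 3, i + 1 = j + 1 ∨ i + 1 = j + 2 ∨ i + 2 = j + 1 := by decide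
    rw [not_disjoint_iff]
    rcases key i j with h | h | h
    · obtain ⟨x, hx, hx'⟩ := not_disjoint_iff.1 (h2 A hp.1 C hq.1)
      exact ⟨(i + 1, x), by simp [mem_two, hx], by simp [mem_two, hx', h]⟩
    · obtain ⟨x, hx, hx'⟩ := not_disjoint_iff.1 (h2 A hp.1 D hq.2)
      exact ⟨(i + 1, x), by simp [mem_two, hx], by simp [mem_two, hx', h]⟩
    · obtain ⟨x, hx, hx'⟩ := not_disjoint_iff.1 (h2 B hp.2 C hq.1)
      exact ⟨(i + 2, x), by simp [mem_two, hx], by simp [mem_two, hx', h]⟩
  · intro D hD
    let sl : Fin 3 → Finset α := fun l => univ.filter fun x => (l, x) ∈ D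
    have hsum : (sl 0).card + (sl 1).card + (sl 2).card = D.card := by
      have : D.card = ∑ p : Fin 3 × α, if p ∈ D then 1 else 0 := by simp
      rw [this, Fintype.sum_prod_type, Fin.sum_univ_three]
      simp only [sl, card_filter]
    obtain ⟨i, hi1, hi2⟩ : ∃ i : Fin 3, (sl (i + 1)).card < k ∧ (sl (i + 2)).card < k := by
      by_cases a : (sl 0).card < k
      · by_cases b : (sl 1).card < k
        · exact ⟨2, a, b⟩
        · exact ⟨1, by show (sl 2).card < k; omega, a⟩
      · exact ⟨0, by show (sl 1).card < k; omega, by show (sl 2).card < k; omega⟩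
    refine (Nat.mul_le_mul (h3 _ hi1) (h3 _ hi2)).trans ?_
    rw [← card_product]
    refine card_le_card_of_injOn (fun p => two i p.1 p.2) ?_ ?_
    · rintro ⟨A, B⟩ hp
      simp only [coe_product, Set.mem_prod, mem_coe, mem_filter] at hp
      simp only [mem_coe, mem_filter]
      refine ⟨mem_image.2 ⟨(i, A, B), by simp [hp.1.1, hp.2.1], rfl⟩, ?_⟩
      rw [disjoint_left]
      rintro ⟨l, x⟩ hx hxD
      rcases (mem_two _ _ _ _ _).1 hx with ⟨rfl, h⟩ | ⟨rfl, h⟩
      · exact disjoint_left.1 hp.1.2 h (by simp [sl, hxD])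
      · exact disjoint_left.1 hp.2.2 h (by simp [sl, hxD])
    · rintro ⟨A, B⟩ - ⟨A', B'⟩ - he
      have he' : two i A B = two i A' B' := he
      have e1 : A = A' := by
        ext x
        have := Finset.ext_iff.1 he' (i + 1, x)
        simpa [mem_two, ne12 i] using this
      have e2 : B = B' := by
        ext x
        have := Finset.ext_iff.1 he' (i + 2, x)
        simpa [mem_two, (ne12 i).symm] using this
      rw [e1, e2]

def graph {k r : ℕ} (s : Fin k → Fin r) : Finset (Fin k × Fin r) := univ.image fun i => (i, s i)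

lemma mem_graph {k r : ℕ} (s : Fin k → Fin r) (i : Fin k) (x : Fin r) :
    (i, x) ∈ graph s ↔ s i = x := by simp [graph]

lemma card_graph {k r : ℕ} (s : Fin k → Fin r) : (graph s).card = k := by
  rw [graph, card_image_of_injective _ fun i j h => (Prod.ext_iff.1 h).1]; simp

lemma Good.step {k0 M : ℕ} (h : Good k0 M) (r : ℕ) (hr : 2 ≤ r) (hk : 2 * r - 1 ≤ k0 + r) :
    Good (k0 + r) (min M (2 ^ (k0 + r + 2 - 3 * r))) := by
  obtain ⟨α, i1, i2, F, h1, h2, h3⟩ := h
  set k := k0 + r with hkdef
  let z : Fin r := ⟨0, by omega⟩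
  let low : Finset (Fin k) := univ.filter fun i => i.1 < 2 * r - 1
  have hlow : low.card = 2 * r - 1 := by
    simp only [low]
    rw [Fin.card_filter_val_lt]
    omega
  let SS : Finset (Fin k → Fin r) := univ.filter fun s => r ≤ (low.filter fun i => s i = z).card
  let F1 : Finset (Finset (α ⊕ (Fin k × Fin r))) :=
    (F ×ˢ (univ : Finset (Fin k))).image fun p => p.1.disjSum ({p.2} ×ˢ univ)
  let F2 : Finset (Finset (α ⊕ (Fin k × Fin r))) :=
    SS.image fun s => (∅ : Finset α).disjSum (graph s)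
  refine ⟨α ⊕ (Fin k × Fin r), inferInstance, inferInstance, F1 ∪ F2, ?_, ?_, ?_⟩
  · intro S hS
    rcases mem_union.1 hS with hS | hS
    · obtain ⟨⟨A, i⟩, hp, rfl⟩ := mem_image.1 hS
      simp [h1 A (mem_product.1 hp).1, hkdef]
    · obtain ⟨s, -, rfl⟩ := mem_image.1 hS
      simp [card_graph]
  · have h12 : ∀ S ∈ F1, ∀ T ∈ F2, ¬ Disjoint S T := by
      intro S hS T hT
      obtain ⟨⟨A, i⟩, -, rfl⟩ := mem_image.1 hS
      obtain ⟨s, -, rfl⟩ := mem_image.1 hT
      exact not_disjoint_iff.2 ⟨Sum.inr (i, s i), by simp, by simp [mem_graph]⟩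
    intro S hS T hT
    rcases mem_union.1 hS with hS | hS <;> rcases mem_union.1 hT with hT | hT
    · obtain ⟨⟨A, i⟩, hp, rfl⟩ := mem_image.1 hS
      obtain ⟨⟨B, j⟩, hq, rfl⟩ := mem_image.1 hT
      obtain ⟨x, hx, hx'⟩ := not_disjoint_iff.1
        (h2 A (mem_product.1 hp).1 B (mem_product.1 hq).1)
      exact not_disjoint_iff.2 ⟨Sum.inl x, by simpa using hx, by simpa using hx'⟩
    · exact h12 S hS T hT
    · exact fun h => h12 T hT S hS h.symm
    · obtain ⟨s, hs, rfl⟩ := mem_image.1 hS
      obtain ⟨t, ht, rfl⟩ := mem_image.1 hT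
      have hs' := (mem_filter.1 hs).2
      have ht' := (mem_filter.1 ht).2
      have : ¬ Disjoint (low.filter fun i => s i = z) (low.filter fun i => t i = z) := by
        intro hd
        have := card_le_card (union_subset (filter_subset (fun i => s i = z) low)
          (filter_subset (fun i => t i = z) low))
        rw [card_union_of_disjoint hd] at this
        omega
      obtain ⟨i, hi, hi'⟩ := not_disjoint_iff.1 this
      exact not_disjoint_iff.2 ⟨Sum.inr (i, z), by simp [mem_graph, (mem_filter.1 hi).2],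
        by simp [mem_graph, (mem_filter.1 hi').2]⟩
  · intro D hD
    have hsum := card_toLeft_add_card_toRight (u := D)
    set U : Finset (Fin k) := D.toRight.image Prod.fst with hU
    have hUc : U.card ≤ D.toRight.card := card_image_le
    by_cases hc : r ≤ D.toRight.card
    · refine (min_le_left _ _).trans ((h3 D.toLeft (by omega)).trans ?_)
      obtain ⟨i, -, hi⟩ := exists_mem_notMem_of_card_lt_card (s := U) (t := univ)
        (by simp; omega)
      refine card_le_card_of_injOn (fun A => A.disjSum ({i} ×ˢ univ)) ?_ ?_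
      · intro A hA
        simp only [mem_coe, mem_filter] at hA ⊢
        refine ⟨mem_union_left _ (mem_image.2 ⟨(A, i), by simp [hA.1], rfl⟩), ?_⟩
        rw [disjoint_left]
        rintro (x | ⟨j, y⟩) hx hxD
        · exact disjoint_left.1 hA.2 (by simpa using hx) (by simpa using hxD)
        · have : j = i := by simpa [eq_comm] using hx
          exact hi (mem_image.2 ⟨(j, y), by simpa using hxD, this⟩)
      · intro A _ B _ he
        exact (disjSum_inj.1 he).1
    · refine (min_le_right _ _).trans ?_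
      have hex : ∀ i : Fin k, ∃ y : Fin r, (i, y) ∉ D.toRight := by
        intro i
        obtain ⟨y, -, hy⟩ := exists_mem_notMem_of_card_lt_card
          (s := D.toRight.image Prod.snd) (t := univ)
          (lt_of_le_of_lt card_image_le (by simp; omega))
        exact ⟨y, fun h => hy (mem_image.2 ⟨_, h, rfl⟩)⟩
      choose t ht using hex
      let O : Fin k → Finset (Fin r) := fun i =>
        if i ∈ U then {t i} else if i ∈ low then {z} else univ
      have hcard : 2 ^ (k + 2 - 3 * r) ≤ (Fintype.piFinset O).card := by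
        rw [Fintype.card_piFinset]
        have e1 : ∏ i ∈ univ \ (U ∪ low), 2 ≤ ∏ i ∈ univ \ (U ∪ low), (O i).card := by
          refine prod_le_prod' fun i hi => ?_
          simp only [mem_sdiff, mem_union, not_or] at hi
          simp [O, hi.2.1, hi.2.2, hr]
        have e2 : ∏ i ∈ univ \ (U ∪ low), (O i).card ≤ ∏ i, (O i).card := by
          refine prod_le_prod_of_subset_of_one_le' (subset_univ _) fun i _ _ => ?_
          simp only [O]
          split_ifs <;> simp; omega
        refine le_trans ?_ (e1.trans e2)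
        rw [prod_const]
        refine Nat.pow_le_pow_right (by norm_num) ?_
        have := card_union_le U low
        rw [card_univ_sdiff]
        simp only [Fintype.card_fin]
        omega
      refine hcard.trans (card_le_card_of_injOn (fun s => (∅ : Finset α).disjSum (graph s)) ?_ ?_)
      · intro s hs
        have hs' := Fintype.mem_piFinset.1 (mem_coe.1 hs)
        simp only [mem_coe, mem_filter]
        refine ⟨mem_union_right _ (mem_image.2 ⟨s, mem_filter.2 ⟨mem_univ _, ?_⟩, rfl⟩), ?_⟩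
        · have : low \ U ⊆ low.filter fun i => s i = z := by
            intro i hi
            have h5 := hs' i
            simp only [O, (mem_sdiff.1 hi).1, (mem_sdiff.1 hi).2, if_true, if_false,
              mem_singleton] at h5
            exact mem_filter.2 ⟨(mem_sdiff.1 hi).1, h5⟩
          have h6 := card_le_card this
          have h7 := le_card_sdiff U low
          omega
        · rw [disjoint_left]
          rintro (x | ⟨j, y⟩) hx hxD
          · simp at hx
          · have e : s j = y := by simpa [mem_graph] using hx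
            have hj : (j, y) ∈ D.toRight := by simpa using hxD
            have hjU : j ∈ U := mem_image.2 ⟨_, hj, rfl⟩
            have h5 := hs' j
            simp only [O, hjU, if_true, mem_singleton] at h5
            exact ht j (by rw [← h5, e]; exact hj)
      · intro s _ s' _ he
        have := (disjSum_inj.1 he).2
        funext i
        exact ((mem_graph s' i _).1 (this ▸ (mem_graph s i _).2 rfl)).symm

theorem all_good (k : ℕ) (hk : 3 ≤ k) : ∃ M, Good k M ∧ 2 ^ (k + 3) ≤ M ^ 10 := by
  have g5 : Good 5 2 := (good3.step 2 le_rfl (by norm_num)).mono (by norm_num)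
  have g7 : Good 7 2 := (g5.step 2 le_rfl (by norm_num)).mono (by norm_num)
  induction k using Nat.strong_induction_on with
  | _ k ih =>
    by_cases h3 : k = 3
    · exact ⟨2, h3 ▸ good3, by rw [h3]; norm_num⟩
    by_cases h4 : k = 4
    · exact ⟨2, h4 ▸ good4, by rw [h4]; norm_num⟩
    by_cases h5 : k = 5
    · exact ⟨2, h5 ▸ g5, by rw [h5]; norm_num⟩
    by_cases h7 : k = 7
    · exact ⟨2, h7 ▸ g7, by rw [h7]⟩
    rcases Nat.even_or_odd' k with ⟨j, rfl | rfl⟩
    · obtain ⟨M, hM, hb⟩ := ih j (by omega) (by omega)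
      refine ⟨M * M, hM.double, ?_⟩
      rw [mul_pow]
      refine le_trans ?_ (Nat.mul_le_mul hb hb)
      rw [← pow_add]
      exact Nat.pow_le_pow_right (by norm_num) (by omega)
    · obtain ⟨M, hM, hb⟩ := ih (j - 1) (by omega) (by omega)
      have := hM.double.step 3 (by norm_num) (by omega)
      rw [show 2 * (j - 1) + 3 = 2 * j + 1 by omega] at this
      refine ⟨_, this, ?_⟩
      rcases min_choice (M * M) (2 ^ (2 * j + 1 + 2 - 3 * 3)) with h | h <;> rw [h]
      · rw [mul_pow]
        refine le_trans ?_ (Nat.mul_le_mul hb hb)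
        rw [← pow_add]
        exact Nat.pow_le_pow_right (by norm_num) (by omega)
      · rw [← pow_mul]
        exact Nat.pow_le_pow_right (by norm_num) (by omega)

end Pool.Agent.H.MP_2b3591_co
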